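import Mathlib
import Pool.Agent.N630.Slab.One

set_option autoImplicit false

/-!
# MP_eba1ef_gt: convex bodies whose facets have at most `d + 2` directions

Let `K` be a convex body in `ℝ^d`, not necessarily symmetric, which is the intersection of at most
`d + 2` slabs `{x : φ_i(x) ∈ I_i}`, where the `φ_i` are linear functionals and the `I_i` intervals,
bounded or not.  In other words, `K` is a polytope all of whose facets are parallel to some of
`d + 2` hyperplanes; up to affine maps these are the sections of the cubes by flats of
codimension at most two.  We prove that `K` is covered by `2^d` translates of its interior, as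
conjectured.  In particular this is true for all centrally symmetric polytopes with at most
`2 (d + 2)` facets, and for all polytopes in `ℝ³` whose facets are parallel to at most five planes.

For `d + 1` slabs (hyperplane sections of the cubes) there is a more precise bound: let
`K = {x : |x_b| ≤ 1, |∑ c_b x_b - n| ≤ 1}` with `|c_b| ≤ 1`, where the hyperplane
`∑ c_b x_b = n + 1` supports `K`; then `c(K)` is at most the number of vertices `y` of the cube with
`∑ c_b y_b - n ≥ -1`.  So one may omit all the vertices of the cube which are cut off on one of the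
two sides.  (The bound `2^d` for `d + 1` slabs is contained in the theorem `CrossBodyWithCaps`
for the dual problem MP_5e7226_co in the starting files.)

The proof.  Make the slabs as thin as possible and let the functionals have the width `2` on `K`.
Among the sets of `d` functionals take one with a determinant of maximal absolute value. In the
coordinates given by it `K` is contained in the cube `[-1,1]^d`, and `K` is cut out of the cube by two
slabs `|ψ_j - n_j| ≤ 1` such that all coefficients of `ψ_1`, `ψ_2` are at most one in absolute value.
There is one direction `v_y` for each vertex `y` of the cube, with the signs of `-y`; the signs of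
`ψ_1(v_y)`, `ψ_2(v_y)` are prescribed by a pinwheel rule: let `q_j = ψ_j(y) - n_j`; the plane without
the open square `(-1,1)²` is divided into the four regions `{q_1 ≥ 1, q_2 > -1}`,
`{q_2 ≥ 1, q_1 < 1}`, `{q_1 ≤ -1, q_2 < 1}`, `{q_2 ≤ -1, q_1 > -1}`, each of which belongs to a
corner of the square.  (Such a direction exists as the slabs support `K`.)  Let `x` be an extreme
point of `K`; the number of its coordinates different from `±1` is at most the number of the
slabs with `x` in the boundary, so at most two.  The main point is a rounding lemma: if, for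
instance, `ψ_1(x) - n_1 = ψ_2(x) - n_2 = 1`, then these coordinates may be changed to `±1` in such a way
that `q_1 ≥ 1` and `q_2 > -1` for the resulting vertex `y`; then `v_y` illuminates `x`.
-/

namespace Pool.Agent.Results.MP_eba1ef_gt.FewSlabs

open Finset

/-- `Covered N K` means that `K` is covered by at most `N` translates of its interior, i.e.
`c(K) ≤ N`. -/
def Covered {d : ℕ} (N : ℕ) (K : Set (EuclideanSpace ℝ (Fin d))) : Prop :=
  ∃ T : Finset (EuclideanSpace ℝ (Fin d)), T.card ≤ N ∧
    K ⊆ ⋃ t ∈ T, (fun x => t + x) '' interior K

/-- **Main theorem.** -/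
theorem result :
    -- 1. intersections of at most `d + 2` slabs, half-spaces
    (∀ (d : ℕ) (ι : Type) [Fintype ι], Fintype.card ι ≤ d + 2 →
      ∀ (φ : ι → (EuclideanSpace ℝ (Fin d) →L[ℝ] ℝ)) (I : ι → Set ℝ), (∀ i, (I i).OrdConnected) →
      ∀ K : Set (EuclideanSpace ℝ (Fin d)), K = {x | ∀ i, φ i x ∈ I i} → IsCompact K →
      (interior K).Nonempty → Covered (2 ^ d) K) ∧
    -- 2. sections of the cube `[0,1]^m` by the image of an affine map of `ℝ^d`, `m ≤ d + 2`
    (∀ (d m : ℕ), m ≤ d + 2 →
      ∀ f : EuclideanSpace ℝ (Fin d) →ᵃ[ℝ] (Fin m → ℝ),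
      IsCompact (f ⁻¹' Set.Icc 0 1) → (interior (f ⁻¹' Set.Icc 0 1)).Nonempty →
      Covered (2 ^ d) (f ⁻¹' Set.Icc 0 1)) ∧
    -- 3. one slab: a more precise bound
    (∀ (d : ℕ) (c : Fin d → ℝ) (n : ℝ) (K : Set (EuclideanSpace ℝ (Fin d))), (∀ b, |c b| ≤ 1) →
      K = {x | (∀ b, |x b| ≤ 1) ∧ |∑ b, c b * x b - n| ≤ 1} → (interior K).Nonempty →
      (∃ x ∈ K, ∑ b, c b * x b - n = 1) →
      Covered (univ.filter fun σ : Fin d → Bool =>
        -1 ≤ ∑ b, c b * (if σ b then (1:ℝ) else -1) - n).card K) := by
  refine ⟨?_, ?_, ?_⟩
  · intro d ι _ hι φ I hI K hK hc hi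
    exact Pool.Agent.N630.Slab.few_slabs hι φ I hI K hK hc hi
  · intro d m hm f hc hi
    let φ : Fin m → (EuclideanSpace ℝ (Fin d) →L[ℝ] ℝ) := fun i =>
      LinearMap.toContinuousLinearMap ((LinearMap.proj i).comp f.linear)
    have hφ : ∀ i x, f x i = φ i x + f 0 i := by
      intro i x
      have h := f.map_vadd 0 x
      rw [vadd_eq_add, vadd_eq_add, add_zero] at h
      exact congrFun h i
    refine Pool.Agent.N630.Slab.few_slabs (ι := Fin m) (by simpa using hm) φ
      (fun i => {r | 0 ≤ r + f 0 i ∧ r + f 0 i ≤ 1}) ?_ _ ?_ hc hi
    · intro i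
      refine ⟨fun a ha b hb r hr => ⟨?_, ?_⟩⟩
      · have := ha.1
        have := hr.1
        linarith
      · have := hb.2
        have := hr.2
        linarith
    · ext x
      constructor
      · rintro ⟨h1, h2⟩ i
        have h3 := h1 i
        have h4 := h2 i
        rw [hφ] at h3 h4
        exact ⟨by simpa using h3, by simpa using h4⟩
      · intro h
        refine ⟨fun i => ?_, fun i => ?_⟩
        · rw [hφ]
          exact (h i).1
        · rw [hφ]
          exact (h i).2
  · intro d c n K hc hK hi ht
    exact Pool.Agent.N630.Slab.one_slab c n hc K hK hi ht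

end Pool.Agent.Results.MP_eba1ef_gt.FewSlabs
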